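import Mathlib

/-!
Lattice varieties, semidistributivity, spatial lattices.
-/

universe u v

namespace Pool.Agent.Helper44.SDLat

/-- Lattice terms in the variables `x_0, x_1, x_2, …`. -/
inductive LTerm : Type
  | var : ℕ → LTerm
  | sup : LTerm → LTerm → LTerm
  | inf : LTerm → LTerm → LTerm

/-- The value of a lattice term in a lattice under an assignment of the variables. -/
def LTerm.eval {L : Type u} [Lattice L] (σ : ℕ → L) : LTerm → L
  | .var n => σ n
  | .sup s t => s.eval σ ⊔ t.eval σ
  | .inf s t => s.eval σ ⊓ t.eval σ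

/-- `K` belongs to the variety `V(L)` generated by `L`: every lattice identity `s = t` that holds
in `L` holds in `K`. -/
def InVariety (L : Type u) [Lattice L] (K : Type v) [Lattice K] : Prop :=
  ∀ s t : LTerm, (∀ σ : ℕ → L, s.eval σ = t.eval σ) → ∀ σ : ℕ → K, s.eval σ = t.eval σ

/-- Semidistributive lattices. -/
def Semidistributive (L : Type u) [Lattice L] : Prop :=
  (∀ x y z : L, x ⊔ y = x ⊔ z → x ⊔ y = x ⊔ (y ⊓ z)) ∧
  (∀ x y z : L, x ⊓ y = x ⊓ z → x ⊓ y = x ⊓ (y ⊔ z))

/-- Locally finite lattices: every finite subset lies in a finite sublattice (equivalently, every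
finitely generated sublattice is finite). -/
def LocallyFiniteLat (L : Type u) [Lattice L] : Prop :=
  ∀ s : Set L, s.Finite → ∃ T : Sublattice L, (T : Set L).Finite ∧ s ⊆ T

/-- Completely join-irreducible elements. -/
def ComplJoinIrred {K : Type u} [CompleteLattice K] (p : K) : Prop :=
  ∀ X : Set K, p = sSup X → p ∈ X

/-- Spatial lattices: every element is a join of completely join-irreducible elements. -/
def Spatial (K : Type u) [CompleteLattice K] : Prop :=
  ∀ x : K, ∃ X : Set K, (∀ p ∈ X, ComplJoinIrred p) ∧ x = sSup X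

end Pool.Agent.Helper44.SDLat
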