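import Pool.Agent.Helper44.SDLat.Proof

/-!
The lattice of closed sets is locally finite and does not embed, within its variety, into an
algebraic spatial lattice.
-/

universe u v

namespace Pool.Agent.Helper44.SDLat

open Cl

/-! ### The key identity -/

section theta

variable {L : Type u} [Lattice L]

/-- auxiliary term -/
def fA (y1 y2 a1 a0 b : L) : L := (a1 ⊓ (y1 ⊓ y2)) ⊓ (a0 ⊔ b)

/-- auxiliary term: `fY y A c` -/
def fY (y A c : L) : L := y ⊓ (A ⊔ c)

/-- auxiliary term -/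
def fG (U A a0 b c : L) : L := (A ⊓ a0) ⊔ ((U ⊓ c) ⊔ (A ⊓ b))

end theta

/-- auxiliary term -/
def sA (y1 y2 a1 a0 b : LTerm) : LTerm := .inf (.inf a1 (.inf y1 y2)) (.sup a0 b)

/-- auxiliary term -/
def sY (y A c : LTerm) : LTerm := .inf y (.sup A c)

/-- auxiliary term -/
def sG (U A a0 b c : LTerm) : LTerm := .sup (.inf A a0) (.sup (.inf U c) (.inf A b))

theorem theta_aux (x Y1 Y2 A a0 b c : Cl) (hA1 : A ≤ Y1) (hA2 : A ≤ Y2) (hAab : A ≤ a0 ⊔ b)
    (hY1 : Y1 ≤ A ⊔ c) (hY2 : Y2 ≤ A ⊔ c) :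
    x ⊓ (Y1 ⊔ Y2) ≤ ((x ⊓ (Y1 ⊔ fG (Y1 ⊔ Y2) A a0 b c)) ⊔ (x ⊓ (Y2 ⊔ fG (Y1 ⊔ Y2) A a0 b c))) ⊔
      (x ⊓ ((Y1 ⊔ Y2) ⊓ (fG (Y1 ⊔ Y2) A a0 b c ⊔ c))) := by
  set U : Cl := Y1 ⊔ Y2 with hU
  set G : Cl := fG U A a0 b c with hG
  have hUA : U ≤ A ⊔ c := sup_le hY1 hY2
  have hUc : U ⊓ c ≤ G := le_sup_left.trans le_sup_right
  have hAb : A ⊓ b ≤ G := le_sup_right.trans le_sup_right
  have hAa : A ⊓ a0 ≤ G := le_sup_left
  set R : Cl := ((x ⊓ (Y1 ⊔ G)) ⊔ (x ⊓ (Y2 ⊔ G))) ⊔ (x ⊓ (U ⊓ (G ⊔ c))) with hR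
  have r1 : x ⊓ (Y1 ⊔ G) ≤ R := le_sup_left.trans le_sup_left
  have r2 : x ⊓ (Y2 ⊔ G) ≤ R := le_sup_right.trans le_sup_left
  have r3 : x ⊓ (U ⊓ (G ⊔ c)) ≤ R := le_sup_right
  -- prime points
  have e0R : (x ⊓ U).e0 → R.e0 := by
    rintro ⟨hx, h | h⟩
    · exact le_e0 r1 ⟨hx, Or.inl h⟩
    · exact le_e0 r2 ⟨hx, Or.inl h⟩
  have hR' : (x ⊓ U).h → R.h := by
    rintro ⟨hx, h | h⟩
    · exact le_h r1 ⟨hx, Or.inl h⟩
    · exact le_h r2 ⟨hx, Or.inl h⟩
  have tR : (x ⊓ U).t → R.t := by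
    rintro ⟨hx, h | h⟩
    · exact le_t r1 ⟨hx, Or.inl h⟩
    · exact le_t r2 ⟨hx, Or.inl h⟩
  have vR : (x ⊓ U).v → R.v := by
    rintro ⟨hx, h | h⟩
    · exact le_v r1 ⟨hx, Or.inl h⟩
    · exact le_v r2 ⟨hx, Or.inl h⟩
  -- `t` and `h` in `U`
  have tU : U.t → A.t ∨ G.t := by
    intro h
    rcases le_t hUA h with h' | h'
    · exact Or.inl h'
    · exact Or.inr (le_t hUc ⟨h, h'⟩)
  have hU' : U.h → A.h ∨ G.h := by
    intro h
    rcases le_h hUA h with h' | h'
    · exact Or.inl h'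
    · exact Or.inr (le_h hUc ⟨h, h'⟩)
  -- `e1` in `U`
  have e1U : U.e1 → (Y1 ⊔ G).e1 ∨ (Y2 ⊔ G).e1 := by
    intro h
    rcases (sup_e1 _ _).1 h with h | h | ⟨h0, hh⟩
    · exact Or.inl (le_e1 le_sup_left h)
    · exact Or.inr (le_e1 le_sup_left h)
    · rcases h0 with h0 | h0
      · left
        refine (Y1 ⊔ G).c2 (Or.inl h0) ?_
        rcases hU' hh with h | h
        · exact Or.inl (le_h hA1 h)
        · exact Or.inr h
      · right
        refine (Y2 ⊔ G).c2 (Or.inl h0) ?_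
        rcases hU' hh with h | h
        · exact Or.inl (le_h hA2 h)
        · exact Or.inr h
  have e1R : (x ⊓ U).e1 → R.e1 := by
    rintro ⟨hx, h⟩
    rcases e1U h with h | h
    · exact le_e1 r1 ⟨hx, h⟩
    · exact le_e1 r2 ⟨hx, h⟩
  have tY1 : U.t → (Y1 ⊔ G).t := by
    intro h
    rcases tU h with h | h
    · exact Or.inl (le_t hA1 h)
    · exact Or.inr h
  have tY2 : U.t → (Y2 ⊔ G).t := by
    intro h
    rcases tU h with h | h
    · exact Or.inl (le_t hA2 h)
    · exact Or.inr h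
  have qR : ∀ k, (x ⊓ U).q k → R.q k := by
    rintro k ⟨hx, h⟩
    rcases (sup_q _ _ k).1 h with h | h | ⟨h1, ht⟩
    · exact le_q r1 k ⟨hx, le_q le_sup_left k h⟩
    · exact le_q r2 k ⟨hx, le_q le_sup_left k h⟩
    · rcases e1U h1 with h | h
      · exact le_q r1 k ⟨hx, (Y1 ⊔ G).c4 h (tY1 ht) k⟩
      · exact le_q r2 k ⟨hx, (Y2 ⊔ G).c4 h (tY2 ht) k⟩
  have vG : U.v → G.v := by
    intro h
    rcases le_v hUA h with h' | h'
    · rcases le_v hAab h' with h'' | h''
      · exact le_v hAa ⟨h', h''⟩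
      · exact le_v hAb ⟨h', h''⟩
    · exact le_v hUc ⟨h, h'⟩
  have pR : (x ⊓ U).p → R.p := by
    rintro ⟨hx, h⟩
    rcases (sup_p _ _).1 h with h' | h' | ⟨hv, hq⟩
    · exact le_p r1 ⟨hx, le_p le_sup_left h'⟩
    · exact le_p r2 ⟨hx, le_p le_sup_left h'⟩
    · have gv : G.v := vG hv
      have ge1 : G.e1 := G.c5 gv
      by_cases ht : U.t
      · refine le_p r1 ⟨hx, (Y1 ⊔ G).c7 (Or.inr gv) ?_⟩
        exact (Y1 ⊔ G).c4 (le_e1 le_sup_right ge1) (tY1 ht)
      · by_cases hall : ∀ k, (Y1 ⊔ G).q k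
        · exact le_p r1 ⟨hx, (Y1 ⊔ G).c7 (Or.inr gv) hall⟩
        · push Not at hall
          obtain ⟨k, hk⟩ := hall
          have hk1 : ¬ Y1.q k := fun h => hk (le_q le_sup_left k h)
          have hkG : ¬ G.q k := fun h => hk (le_q le_sup_right k h)
          have hkU : U.q k := hq k
          rcases (sup_q _ _ k).1 (le_q hUA k hkU) with h' | h' | ⟨_, h'⟩
          · exact absurd (le_q hA1 k h') hk1
          · exact absurd (le_q hUc k ⟨hkU, h'⟩) hkG
          · have ct : c.t := by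
              rcases h' with h' | h'
              · exact absurd (Or.inl (le_t hA1 h')) ht
              · exact h'
            refine le_p r3 ⟨hx, h, (G ⊔ c).c7 (Or.inl gv) ?_⟩
            exact (G ⊔ c).c4 (le_e1 le_sup_left ge1) (Or.inr ct)
  rw [le_iff]
  exact ⟨e0R, e1R, hR', tR, vR, pR, qR⟩

/-- The key identity transferred to the variety. -/
theorem theta {K : Type v} [Lattice K] (H : InVariety Cl K) (x y1 y2 a1 a0 b c : K) :
    x ⊓ (fY y1 (fA y1 y2 a1 a0 b) c ⊔ fY y2 (fA y1 y2 a1 a0 b) c) ≤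
      ((x ⊓ (fY y1 (fA y1 y2 a1 a0 b) c ⊔ fG (fY y1 (fA y1 y2 a1 a0 b) c ⊔
          fY y2 (fA y1 y2 a1 a0 b) c) (fA y1 y2 a1 a0 b) a0 b c)) ⊔
        (x ⊓ (fY y2 (fA y1 y2 a1 a0 b) c ⊔ fG (fY y1 (fA y1 y2 a1 a0 b) c ⊔
          fY y2 (fA y1 y2 a1 a0 b) c) (fA y1 y2 a1 a0 b) a0 b c))) ⊔
      (x ⊓ ((fY y1 (fA y1 y2 a1 a0 b) c ⊔ fY y2 (fA y1 y2 a1 a0 b) c) ⊓
        (fG (fY y1 (fA y1 y2 a1 a0 b) c ⊔
          fY y2 (fA y1 y2 a1 a0 b) c) (fA y1 y2 a1 a0 b) a0 b c ⊔ c))) := by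
  let A : LTerm := sA (.var 1) (.var 2) (.var 3) (.var 4) (.var 5)
  let Y1 : LTerm := sY (.var 1) A (.var 6)
  let Y2 : LTerm := sY (.var 2) A (.var 6)
  let U : LTerm := .sup Y1 Y2
  let G : LTerm := sG U A (.var 4) (.var 5) (.var 6)
  let l : LTerm := .inf (.var 0) U
  let r : LTerm := .sup (.sup (.inf (.var 0) (.sup Y1 G)) (.inf (.var 0) (.sup Y2 G)))
    (.inf (.var 0) (.inf U (.sup G (.var 6))))
  have key := H.le l r (fun σ => by
    have h := theta_aux (σ 0) (fY (σ 1) (fA (σ 1) (σ 2) (σ 3) (σ 4) (σ 5)) (σ 6))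
      (fY (σ 2) (fA (σ 1) (σ 2) (σ 3) (σ 4) (σ 5)) (σ 6))
      (fA (σ 1) (σ 2) (σ 3) (σ 4) (σ 5)) (σ 4) (σ 5) (σ 6)
      (le_inf (inf_le_left.trans (inf_le_right.trans inf_le_left)) le_sup_left)
      (le_inf (inf_le_left.trans (inf_le_right.trans inf_le_right)) le_sup_left)
      inf_le_right inf_le_right inf_le_right
    exact h) (fun n => if n = 0 then x else if n = 1 then y1 else if n = 2 then y2 else
      if n = 3 then a1 else if n = 4 then a0 else if n = 5 then b else c)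
  exact key

/-! ### Elements of the lattice -/

/-- `{e0}` -/
def E0 : Cl where
  e0 := True
  e1 := False
  h := False
  t := False
  v := False
  p := False
  q := fun _ => False
  c1 := fun h => h.elim
  c2 := fun _ h => h
  c3 := fun _ h => h
  c4 := fun h => h.elim
  c5 := fun h => h
  c6 := fun h => h.elim
  c7 := fun h => h.elim

/-- `{h}` -/
def Hh : Cl where
  e0 := False
  e1 := False
  h := True
  t := False
  v := False
  p := False
  q := fun _ => False
  c1 := fun h => h.elim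
  c2 := fun h => h.elim
  c3 := fun _ h => h
  c4 := fun h => h.elim
  c5 := fun h => h
  c6 := fun h => h.elim
  c7 := fun h => h.elim

/-- `{t}` -/
def Tt : Cl where
  e0 := False
  e1 := False
  h := False
  t := True
  v := False
  p := False
  q := fun _ => False
  c1 := fun h => h.elim
  c2 := fun h => h.elim
  c3 := fun _ h => h
  c4 := fun h => h.elim
  c5 := fun h => h
  c6 := fun h => h.elim
  c7 := fun h => h.elim

/-- `{e0,e1} ∪ {q k : k ∈ s}` -/
def W (s : Set ℕ) : Cl where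
  e0 := True
  e1 := True
  h := False
  t := False
  v := False
  p := False
  q := fun k => k ∈ s
  c1 := fun h => h
  c2 := fun _ _ => trivial
  c3 := fun _ _ => trivial
  c4 := fun _ h => h.elim
  c5 := fun h => h.elim
  c6 := fun h => h.elim
  c7 := fun h => h.elim

/-- `{e0,e1,v}` -/
def V : Cl where
  e0 := True
  e1 := True
  h := False
  t := False
  v := True
  p := False
  q := fun _ => False
  c1 := fun h => h
  c2 := fun _ _ => trivial
  c3 := fun _ _ => trivial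
  c4 := fun _ h => h.elim
  c5 := fun _ => trivial
  c6 := fun h => h.elim
  c7 := fun _ h => h 0

/-- `{e0,e1,p} ∪ {q k : k}` -/
def P : Cl where
  e0 := True
  e1 := True
  h := False
  t := False
  v := False
  p := True
  q := fun _ => True
  c1 := fun h => h
  c2 := fun _ _ => trivial
  c3 := fun _ _ => trivial
  c4 := fun _ _ _ => trivial
  c5 := fun _ => trivial
  c6 := fun _ _ => trivial
  c7 := fun _ _ => trivial

theorem P_not_le : ¬ P ≤ W Set.univ := fun h => le_p h trivial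

theorem P_le : P ≤ W Set.univ ⊔ V := by
  have hq : ∀ k, (W Set.univ ⊔ V).q k := fun k => Or.inl trivial
  rw [le_iff]
  exact ⟨fun _ => Or.inl trivial, fun _ => Or.inl trivial, fun h => h.elim, fun h => h.elim,
    fun h => h.elim, fun _ => Or.inr (Or.inr ⟨Or.inr trivial, hq⟩), fun k _ => hq k⟩

theorem P_inf_le (s : Set ℕ) (hs : ∃ k, k ∉ s) : P ⊓ (W s ⊔ V) ≤ W Set.univ := by
  obtain ⟨k, hk⟩ := hs
  have hqk : ¬ (W s ⊔ V).q k := by
    rintro (h | h | ⟨_, h | h⟩)
    · exact hk h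
    · exact h
    · exact h
    · exact h
  rw [le_iff]
  refine ⟨fun _ => trivial, fun _ => trivial, fun h => h.1.elim, fun h => h.1.elim,
    fun h => h.1.elim, ?_, fun _ _ => trivial⟩
  rintro ⟨_, h | h | ⟨_, h⟩⟩
  · exact h
  · exact h
  · exact hqk (h k)

theorem W_mono {s s' : Set ℕ} (h : s ⊆ s') : W s ≤ W s' :=
  ⟨id, id, id, id, id, id, fun _ hk => h hk⟩

/-! ### The key identity at the elements of the lattice -/

theorem calc_A (s : Set ℕ) : fA (W s) (W sᶜ) (W ∅) E0 Hh = W ∅ := by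
  apply le_antisymm
  · exact inf_le_left.trans inf_le_left
  · refine le_inf (le_inf le_rfl (le_inf (W_mono (Set.empty_subset _))
      (W_mono (Set.empty_subset _)))) ?_
    rw [le_iff]
    exact ⟨fun _ => Or.inl trivial, fun _ => Or.inr (Or.inr ⟨Or.inl trivial, Or.inr trivial⟩),
      fun h => h.elim, fun h => h.elim, fun h => h.elim, fun h => h.elim, fun k h => h.elim⟩

theorem calc_Y (s : Set ℕ) : fY (W s) (W ∅) Tt = W s := by
  refine inf_eq_left.2 ?_
  rw [le_iff]
  exact ⟨fun _ => Or.inl trivial, fun _ => Or.inl trivial,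
      fun h => h.elim, fun h => h.elim, fun h => h.elim, fun h => h.elim,
      fun k h => Or.inr (Or.inr ⟨Or.inl trivial, Or.inr trivial⟩)⟩

theorem calc_U (s : Set ℕ) : W s ⊔ W sᶜ = W Set.univ := by
  apply le_antisymm
  · exact sup_le (W_mono (Set.subset_univ _)) (W_mono (Set.subset_univ _))
  · rw [le_iff]
    refine ⟨fun _ => Or.inl trivial, fun _ => Or.inl trivial,
      fun h => h.elim, fun h => h.elim, fun h => h.elim, fun h => h.elim, fun k _ => ?_⟩
    by_cases hk : k ∈ s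
    · exact Or.inl hk
    · exact Or.inr (Or.inl hk)

theorem calc_G : fG (W Set.univ) (W ∅) E0 Hh Tt = E0 := by
  apply le_antisymm
  · refine sup_le inf_le_right (sup_le ?_ ?_)
    · rw [le_iff]
      exact ⟨fun h => h.2.elim, fun h => h.2.elim, fun h => h.2.elim, fun h => h.1.elim,
        fun h => h.2.elim, fun h => h.2.elim, fun _ h => h.2.elim⟩
    · rw [le_iff]
      exact ⟨fun h => h.2.elim, fun h => h.2.elim, fun h => h.1.elim, fun h => h.1.elim,
        fun h => h.2.elim, fun h => h.2.elim, fun _ h => h.2.elim⟩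
  · refine le_trans (le_inf ?_ le_rfl) le_sup_left
    rw [le_iff]
    exact ⟨fun _ => trivial, fun h => h.elim, fun h => h.elim, fun h => h.elim,
      fun h => h.elim, fun h => h.elim, fun _ h => h.elim⟩

theorem calc_last : W Set.univ ⊓ (E0 ⊔ Tt) ≤ E0 := by
  have h1 : ¬ (E0 ⊔ Tt).e1 := by
    rintro (h | h | ⟨_, h | h⟩)
    · exact h
    · exact h
    · exact h
    · exact h
  rw [le_iff]
  refine ⟨fun _ => trivial, fun h => h1 h.2, fun h => h.1.elim, fun h => h.1.elim,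
    fun h => h.1.elim, fun h => h.1.elim, ?_⟩
  rintro k ⟨_, h⟩
  exact h1 ((E0 ⊔ Tt).c3 k h)

theorem E0_le (s : Set ℕ) : E0 ≤ W s := by
  rw [le_iff]
  exact ⟨fun _ => trivial, fun h => h.elim, fun h => h.elim, fun h => h.elim,
      fun h => h.elim, fun h => h.elim, fun _ h => h.elim⟩

theorem split {K : Type v} [Lattice K] (H : InVariety Cl K) (f : LatticeHom Cl K) (s : Set ℕ)
    (x : K) (hx : x ≤ f (W Set.univ)) : x = (x ⊓ f (W s)) ⊔ (x ⊓ f (W sᶜ)) := by
  apply le_antisymm _ (sup_le inf_le_left inf_le_left)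
  have key := theta H x (f (W s)) (f (W sᶜ)) (f (W ∅)) (f E0) (f Hh) (f Tt)
  have hA : fA (f (W s)) (f (W sᶜ)) (f (W ∅)) (f E0) (f Hh) = f (W ∅) := by
    have := congrArg f (calc_A s)
    simpa only [fA, map_inf, map_sup] using this
  have hY : ∀ s, fY (f (W s)) (f (W ∅)) (f Tt) = f (W s) := by
    intro s
    have := congrArg f (calc_Y s)
    simpa only [fY, map_inf, map_sup] using this
  have hU : f (W s) ⊔ f (W sᶜ) = f (W Set.univ) := by
    rw [← map_sup, calc_U]
  have hG : fG (f (W Set.univ)) (f (W ∅)) (f E0) (f Hh) (f Tt) = f E0 := by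
    have := congrArg f calc_G
    simpa only [fG, map_inf, map_sup] using this
  rw [hA, hY, hY, hU, hG] at key
  have h1 : f (W s) ⊔ f E0 = f (W s) := by
    rw [← map_sup, sup_eq_left.2 (E0_le s)]
  have h2 : f (W sᶜ) ⊔ f E0 = f (W sᶜ) := by
    rw [← map_sup, sup_eq_left.2 (E0_le sᶜ)]
  have h3 : f (W Set.univ) ⊓ (f E0 ⊔ f Tt) ≤ f (W s) := by
    rw [← map_sup, ← map_inf]
    exact (OrderHomClass.mono f) (calc_last.trans (E0_le s))
  rw [h1, h2, inf_eq_left.2 hx] at key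
  refine key.trans (sup_le le_rfl ?_)
  exact (inf_le_inf_left x h3).trans le_sup_left

/-! ### Non-embeddability -/

theorem cji_compact {K : Type v} [CompleteLattice K] (hK : IsCompactlyGenerated K) {p : K}
    (hp : ComplJoinIrred p) : IsCompactElement p := by
  obtain ⟨s, hs, h⟩ := hK.exists_sSup_eq p
  exact hs p (hp s h.symm)

theorem cji_split {K : Type v} [CompleteLattice K] {p a b : K} (hp : ComplJoinIrred p)
    (h : p = (p ⊓ a) ⊔ (p ⊓ b)) : p ≤ a ∨ p ≤ b := by
  have h' : p = sSup {p ⊓ a, p ⊓ b} := by rw [sSup_pair]; exact h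
  rcases hp _ h' with h1 | h1
  · left
    calc p = p ⊓ a := h1
      _ ≤ a := inf_le_right
  · right
    calc p = p ⊓ b := h1
      _ ≤ b := inf_le_right

theorem no_embedding (K : Type v) [CompleteLattice K] (hK : IsCompactlyGenerated K)
    (hS : Spatial K) (H : InVariety Cl K) (f : LatticeHom Cl K) (hf : Function.Injective f) :
    False := by
  -- `f` reflects the order
  have hmono : ∀ {a b : Cl}, a ≤ b → f a ≤ f b := fun h => OrderHomClass.mono f h
  have hrefl : ∀ {a b : Cl}, f a ≤ f b → a ≤ b := by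
    intro a b h
    have : f (a ⊓ b) = f a := by rw [map_inf]; exact inf_eq_left.2 h
    exact inf_eq_left.1 (hf this)
  -- a completely join-irreducible element
  obtain ⟨X, hX, hPX⟩ := hS (f P)
  have hex : ∃ p ∈ X, ¬ p ≤ f (W Set.univ) := by
    by_contra hcon
    push Not at hcon
    apply P_not_le
    apply hrefl
    rw [hPX]
    exact sSup_le hcon
  obtain ⟨p, hpX, hpU⟩ := hex
  have hp := hX p hpX
  have hpP : p ≤ f P := by rw [hPX]; exact le_sSup hpX
  have hpc := cji_compact hK hp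
  obtain ⟨Y, hY, hUY⟩ := hS (f (W Set.univ))
  have hpY : p ≤ sSup (insert (f V) Y) := by
    rw [sSup_insert, ← hUY, sup_comm, ← map_sup]
    exact hpP.trans (hmono P_le)
  obtain ⟨F, hFY, hpF⟩ := (CompleteLattice.isCompactElement_iff_exists_le_sSup_of_le_sSup K p).1 hpc _ hpY
  -- each element of `F` other than `f V` misses at most one `k`
  classical
  have hone : ∀ q ∈ F, q ≠ f V → ∀ k l : ℕ, ¬ q ≤ f (W {k}ᶜ) → ¬ q ≤ f (W {l}ᶜ) → k = l := by
    intro q hq hqV k l hk hl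
    by_contra hkl
    have hqY : q ∈ Y := (hFY hq).resolve_left hqV
    have hqJ := hY q hqY
    have hqU : q ≤ f (W Set.univ) := by rw [hUY]; exact le_sSup hqY
    rcases cji_split hqJ (split H f {k} q hqU) with h1 | h1
    · apply hl
      refine h1.trans (hmono (W_mono ?_))
      intro m hm
      rw [Set.mem_singleton_iff] at hm
      subst hm
      exact hkl
    · exact hk h1
  have hgood : ∃ k : ℕ, ∀ q ∈ F, q ≠ f V → q ≤ f (W {k}ᶜ) := by
    by_contra hcon
    push Not at hcon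
    choose g hgF hgV hg using hcon
    have hinj : Function.Injective (fun k : ℕ => (⟨g k, hgF k⟩ : F)) := by
      intro k l hkl
      have hkl' : g k = g l := congrArg Subtype.val hkl
      exact hone (g k) (hgF k) (hgV k) k l (hg k) (hkl' ▸ hg l)
    exact not_injective_infinite_finite _ hinj
  obtain ⟨k, hk⟩ := hgood
  have hpk : p ≤ f (W {k}ᶜ) ⊔ f V := by
    refine hpF.trans (Finset.sup_le ?_)
    intro q hq
    change q ≤ _
    by_cases hqV : q = f V
    · rw [hqV]
      exact le_sup_right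
    · exact (hk q hq hqV).trans le_sup_left
  apply hpU
  calc p ≤ f P ⊓ (f (W {k}ᶜ) ⊔ f V) := le_inf hpP hpk
    _ = f (P ⊓ (W {k}ᶜ ⊔ V)) := by rw [map_inf, map_sup]
    _ ≤ f (W Set.univ) := hmono (P_inf_le _ ⟨k, fun h => h rfl⟩)

/-! ### Local finiteness -/

/-- the sublattice of elements whose `q`-part does not separate equivalent indices -/
def subl (s : Set Cl) : Sublattice Cl where
  carrier := {x | ∀ k l : ℕ, (∀ y ∈ s, y.q k ↔ y.q l) → (x.q k → x.q l)}
  supClosed' := by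
    intro x hx y hy k l hkl h
    rcases (sup_q _ _ k).1 h with h | h | h
    · exact Or.inl (hx k l hkl h)
    · exact Or.inr (Or.inl (hy k l hkl h))
    · exact Or.inr (Or.inr h)
  infClosed' := by
    intro x hx y hy k l hkl h
    exact ⟨hx k l hkl h.1, hy k l hkl h.2⟩

theorem locFin : LocallyFiniteLat Cl := by
  intro s hs
  refine ⟨subl s, ?_, ?_⟩
  · have : Finite s := hs
    let Φ : ↥(subl s) → (Fin 6 → Prop) × Set (Set s) := fun x =>
      (![x.1.e0, x.1.e1, x.1.h, x.1.t, x.1.v, x.1.p],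
        {c | ∃ k : ℕ, x.1.q k ∧ c = {y : s | y.1.q k}})
    have hΦ : Function.Injective Φ := by
      intro x y hxy
      have h1 := congrArg Prod.fst hxy
      have h2 := congrArg Prod.snd hxy
      have key : ∀ x y : ↥(subl s), (Φ x).2 = (Φ y).2 → ∀ k, x.1.q k → y.1.q k := by
        intro x y h k hk
        have : ({z : s | z.1.q k} : Set s) ∈ (Φ x).2 := ⟨k, hk, rfl⟩
        rw [h] at this
        obtain ⟨l, hl, hkl⟩ := this
        refine y.2 l k ?_ hl
        intro z hz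
        have : (⟨z, hz⟩ : s) ∈ ({z : s | z.1.q k} : Set s) ↔
            (⟨z, hz⟩ : s) ∈ ({z : s | z.1.q l} : Set s) := by rw [hkl]
        exact this.symm
      apply Subtype.ext
      ext k
      · exact iff_of_eq (congrFun h1 0)
      · exact iff_of_eq (congrFun h1 1)
      · exact iff_of_eq (congrFun h1 2)
      · exact iff_of_eq (congrFun h1 3)
      · exact iff_of_eq (congrFun h1 4)
      · exact iff_of_eq (congrFun h1 5)
      · exact ⟨key x y h2 _, key y x h2.symm _⟩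
    have : Finite ↥(subl s) := Finite.of_injective Φ hΦ
    exact Set.toFinite _
  · intro x hx k l hkl h
    exact (hkl x hx).1 h

end Pool.Agent.Helper44.SDLat
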