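import Pool.Agent.Helper44.SDLat.Defs

/-!
The lattice of closed sets on the points `e0 < e1 < q k < p`, `h`, `t`, `v > e1`.
-/

universe u v

namespace Pool.Agent.Helper44.SDLat

/-- inequalities transfer to the variety -/
theorem InVariety.le {L : Type u} [Lattice L] {K : Type v} [Lattice K] (H : InVariety L K)
    (s t : LTerm) (h : ∀ σ : ℕ → L, s.eval σ ≤ t.eval σ) (σ : ℕ → K) :
    s.eval σ ≤ t.eval σ := by
  have := H (.sup s t) t (fun σ => by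
    change s.eval σ ⊔ t.eval σ = t.eval σ
    exact sup_eq_right.2 (h σ)) σ
  exact sup_eq_right.1 this

/-! ### The lattice -/

/-- closed sets -/
@[ext] structure Cl where
  e0 : Prop
  e1 : Prop
  h : Prop
  t : Prop
  v : Prop
  p : Prop
  q : ℕ → Prop
  c1 : e1 → e0
  c2 : e0 → h → e1
  c3 : ∀ k, q k → e1
  c4 : e1 → t → ∀ k, q k
  c5 : v → e1
  c6 : p → ∀ k, q k
  c7 : v → (∀ k, q k) → p

namespace Cl

/-- order -/
def le (x y : Cl) : Prop :=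
  (x.e0 → y.e0) ∧ (x.e1 → y.e1) ∧ (x.h → y.h) ∧ (x.t → y.t) ∧ (x.v → y.v) ∧ (x.p → y.p) ∧
    ∀ k, x.q k → y.q k

/-- meet -/
def inf (x y : Cl) : Cl where
  e0 := x.e0 ∧ y.e0
  e1 := x.e1 ∧ y.e1
  h := x.h ∧ y.h
  t := x.t ∧ y.t
  v := x.v ∧ y.v
  p := x.p ∧ y.p
  q := fun k => x.q k ∧ y.q k
  c1 := fun H => ⟨x.c1 H.1, y.c1 H.2⟩
  c2 := fun H H' => ⟨x.c2 H.1 H'.1, y.c2 H.2 H'.2⟩
  c3 := fun k H => ⟨x.c3 k H.1, y.c3 k H.2⟩
  c4 := fun H H' k => ⟨x.c4 H.1 H'.1 k, y.c4 H.2 H'.2 k⟩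
  c5 := fun H => ⟨x.c5 H.1, y.c5 H.2⟩
  c6 := fun H k => ⟨x.c6 H.1 k, y.c6 H.2 k⟩
  c7 := fun H H' => ⟨x.c7 H.1 fun k => (H' k).1, y.c7 H.2 fun k => (H' k).2⟩

/-- `e1` in the join -/
def je1 (x y : Cl) : Prop := x.e1 ∨ y.e1 ∨ ((x.e0 ∨ y.e0) ∧ (x.h ∨ y.h))

/-- `q k` in the join -/
def jq (x y : Cl) (k : ℕ) : Prop := x.q k ∨ y.q k ∨ (je1 x y ∧ (x.t ∨ y.t))

/-- join -/
def sup (x y : Cl) : Cl where
  e0 := x.e0 ∨ y.e0
  e1 := je1 x y
  h := x.h ∨ y.h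
  t := x.t ∨ y.t
  v := x.v ∨ y.v
  p := x.p ∨ y.p ∨ ((x.v ∨ y.v) ∧ ∀ k, jq x y k)
  q := jq x y
  c1 := by
    rintro (H | H | H)
    · exact Or.inl (x.c1 H)
    · exact Or.inr (y.c1 H)
    · exact H.1
  c2 := fun H H' => Or.inr (Or.inr ⟨H, H'⟩)
  c3 := by
    rintro k (H | H | H)
    · exact Or.inl (x.c3 k H)
    · exact Or.inr (Or.inl (y.c3 k H))
    · exact H.1
  c4 := fun H H' k => Or.inr (Or.inr ⟨H, H'⟩)
  c5 := by
    rintro (H | H)
    · exact Or.inl (x.c5 H)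
    · exact Or.inr (Or.inl (y.c5 H))
  c6 := by
    rintro (H | H | H) k
    · exact Or.inl (x.c6 H k)
    · exact Or.inr (Or.inl (y.c6 H k))
    · exact H.2 k
  c7 := fun H H' => Or.inr (Or.inr ⟨H, H'⟩)

instance : Lattice Cl where
  le := le
  sup := sup
  inf := inf
  le_refl x := ⟨id, id, id, id, id, id, fun _ => id⟩
  le_trans := by
    rintro x y z ⟨a1, a2, a3, a4, a5, a6, a7⟩ ⟨b1, b2, b3, b4, b5, b6, b7⟩
    exact ⟨b1 ∘ a1, b2 ∘ a2, b3 ∘ a3, b4 ∘ a4, b5 ∘ a5, b6 ∘ a6, fun k => b7 k ∘ a7 k⟩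
  le_antisymm := by
    rintro x y ⟨a1, a2, a3, a4, a5, a6, a7⟩ ⟨b1, b2, b3, b4, b5, b6, b7⟩
    ext
    · exact ⟨a1, b1⟩
    · exact ⟨a2, b2⟩
    · exact ⟨a3, b3⟩
    · exact ⟨a4, b4⟩
    · exact ⟨a5, b5⟩
    · exact ⟨a6, b6⟩
    · exact ⟨a7 _, b7 _⟩
  le_sup_left x y := ⟨Or.inl, Or.inl, Or.inl, Or.inl, Or.inl, Or.inl, fun _ => Or.inl⟩
  le_sup_right x y := ⟨Or.inr, fun H => Or.inr (Or.inl H), Or.inr, Or.inr, Or.inr,
    fun H => Or.inr (Or.inl H), fun _ H => Or.inr (Or.inl H)⟩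
  sup_le := by
    rintro x y z ⟨a1, a2, a3, a4, a5, a6, a7⟩ ⟨b1, b2, b3, b4, b5, b6, b7⟩
    have h0 : x.e0 ∨ y.e0 → z.e0 := fun H => H.elim a1 b1
    have hh : x.h ∨ y.h → z.h := fun H => H.elim a3 b3
    have ht : x.t ∨ y.t → z.t := fun H => H.elim a4 b4
    have hv : x.v ∨ y.v → z.v := fun H => H.elim a5 b5
    have h1 : je1 x y → z.e1 := by
      rintro (H | H | H)
      · exact a2 H
      · exact b2 H
      · exact z.c2 (h0 H.1) (hh H.2)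
    have hq : ∀ k, jq x y k → z.q k := by
      rintro k (H | H | H)
      · exact a7 k H
      · exact b7 k H
      · exact z.c4 (h1 H.1) (ht H.2) k
    refine ⟨h0, h1, hh, ht, hv, ?_, hq⟩
    rintro (H | H | H)
    · exact a6 H
    · exact b6 H
    · exact z.c7 (hv H.1) fun k => hq k (H.2 k)
  inf_le_left x y := ⟨And.left, And.left, And.left, And.left, And.left, And.left, fun _ => And.left⟩
  inf_le_right x y :=
    ⟨And.right, And.right, And.right, And.right, And.right, And.right, fun _ => And.right⟩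
  le_inf := by
    rintro x y z ⟨a1, a2, a3, a4, a5, a6, a7⟩ ⟨b1, b2, b3, b4, b5, b6, b7⟩
    exact ⟨fun H => ⟨a1 H, b1 H⟩, fun H => ⟨a2 H, b2 H⟩, fun H => ⟨a3 H, b3 H⟩,
      fun H => ⟨a4 H, b4 H⟩, fun H => ⟨a5 H, b5 H⟩, fun H => ⟨a6 H, b6 H⟩,
      fun k H => ⟨a7 k H, b7 k H⟩⟩

variable (x y z : Cl)

theorem le_iff : x ≤ y ↔ (x.e0 → y.e0) ∧ (x.e1 → y.e1) ∧ (x.h → y.h) ∧ (x.t → y.t) ∧
    (x.v → y.v) ∧ (x.p → y.p) ∧ ∀ k, x.q k → y.q k := Iff.rfl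

variable {x y}

theorem le_e0 (H : x ≤ y) : x.e0 → y.e0 := H.1
theorem le_e1 (H : x ≤ y) : x.e1 → y.e1 := H.2.1
theorem le_h (H : x ≤ y) : x.h → y.h := H.2.2.1
theorem le_t (H : x ≤ y) : x.t → y.t := H.2.2.2.1
theorem le_v (H : x ≤ y) : x.v → y.v := H.2.2.2.2.1
theorem le_p (H : x ≤ y) : x.p → y.p := H.2.2.2.2.2.1
theorem le_q (H : x ≤ y) (k : ℕ) : x.q k → y.q k := H.2.2.2.2.2.2 k

variable (x y)

theorem sup_e0 : (x ⊔ y).e0 ↔ x.e0 ∨ y.e0 := Iff.rfl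
theorem sup_h : (x ⊔ y).h ↔ x.h ∨ y.h := Iff.rfl
theorem sup_t : (x ⊔ y).t ↔ x.t ∨ y.t := Iff.rfl
theorem sup_v : (x ⊔ y).v ↔ x.v ∨ y.v := Iff.rfl
theorem sup_e1 : (x ⊔ y).e1 ↔ x.e1 ∨ y.e1 ∨ ((x ⊔ y).e0 ∧ (x ⊔ y).h) := Iff.rfl
theorem sup_q (k : ℕ) : (x ⊔ y).q k ↔ x.q k ∨ y.q k ∨ ((x ⊔ y).e1 ∧ (x ⊔ y).t) := Iff.rfl
theorem sup_p : (x ⊔ y).p ↔ x.p ∨ y.p ∨ ((x ⊔ y).v ∧ ∀ k, (x ⊔ y).q k) := Iff.rfl

end Cl

/-! ### Semidistributive identities -/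

/-- Jónsson–Rival sequence for joins -/
def dj {L : Type u} [Lattice L] : ℕ → L → L → L → L
  | 0, _, y, _ => y
  | (i + 1), x, y, z => y ⊓ (x ⊔ dj i x z y)

/-- its dual -/
def dm {L : Type u} [Lattice L] : ℕ → L → L → L → L
  | 0, _, y, _ => y
  | (i + 1), x, y, z => y ⊔ (x ⊓ dm i x z y)

/-- the corresponding terms -/
def tj : ℕ → LTerm → LTerm → LTerm → LTerm
  | 0, _, y, _ => y
  | (i + 1), x, y, z => .inf y (.sup x (tj i x z y))

/-- the corresponding terms -/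
def tm : ℕ → LTerm → LTerm → LTerm → LTerm
  | 0, _, y, _ => y
  | (i + 1), x, y, z => .sup y (.inf x (tm i x z y))

theorem eval_tj {L : Type u} [Lattice L] (σ : ℕ → L) (i : ℕ) : ∀ x y z : LTerm,
    (tj i x y z).eval σ = dj i (x.eval σ) (y.eval σ) (z.eval σ) := by
  induction i with
  | zero => intro x y z; rfl
  | succ i ih =>
    intro x y z
    change (y.eval σ) ⊓ ((x.eval σ) ⊔ (tj i x z y).eval σ) = _
    rw [ih]
    rfl

theorem eval_tm {L : Type u} [Lattice L] (σ : ℕ → L) (i : ℕ) : ∀ x y z : LTerm,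
    (tm i x y z).eval σ = dm i (x.eval σ) (y.eval σ) (z.eval σ) := by
  induction i with
  | zero => intro x y z; rfl
  | succ i ih =>
    intro x y z
    change (y.eval σ) ⊔ ((x.eval σ) ⊓ (tm i x z y).eval σ) = _
    rw [ih]
    rfl

theorem dj_le {L : Type u} [Lattice L] (i : ℕ) (x y z : L) : dj i x y z ≤ y := by
  cases i with
  | zero => exact le_refl _
  | succ i => exact inf_le_left

theorem le_dm {L : Type u} [Lattice L] (i : ℕ) (x y z : L) : y ≤ dm i x y z := by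
  cases i with
  | zero => exact le_refl _
  | succ i => exact le_sup_left

theorem dm_mono {L : Type u} [Lattice L] (i : ℕ) : ∀ x y z : L, dm i x y z ≤ dm (i + 1) x y z := by
  induction i with
  | zero => intro x y z; exact le_sup_left
  | succ i ih =>
    intro x y z
    exact sup_le_sup_left (inf_le_inf_left _ (ih x z y)) _

theorem dj_of_eq {L : Type u} [Lattice L] {x y z : L} (h : x ⊔ y = x ⊔ z) (i : ℕ) :
    dj i x y z = y ∧ dj i x z y = z := by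
  induction i with
  | zero => exact ⟨rfl, rfl⟩
  | succ i ih =>
    constructor
    · change y ⊓ (x ⊔ dj i x z y) = y
      rw [ih.2, ← h]
      exact inf_eq_left.2 le_sup_right
    · change z ⊓ (x ⊔ dj i x y z) = z
      rw [ih.1, h]
      exact inf_eq_left.2 le_sup_right

theorem dm_of_eq {L : Type u} [Lattice L] {x y z : L} (h : x ⊓ y = x ⊓ z) (i : ℕ) :
    dm i x y z = y ∧ dm i x z y = z := by
  induction i with
  | zero => exact ⟨rfl, rfl⟩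
  | succ i ih =>
    constructor
    · change y ⊔ (x ⊓ dm i x z y) = y
      rw [ih.2, ← h]
      exact sup_eq_left.2 inf_le_right
    · change z ⊔ (x ⊓ dm i x y z) = z
      rw [ih.1, h]
      exact sup_eq_left.2 inf_le_right

theorem semidistributive_of {K : Type u} [Lattice K] (m n : ℕ)
    (h1 : ∀ x y z : K, dj m x y z ≤ x ⊔ (y ⊓ z))
    (h2 : ∀ x y z : K, x ⊓ (y ⊔ z) ≤ dm n x y z) : Semidistributive K := by
  constructor
  · intro x y z h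
    refine le_antisymm (sup_le le_sup_left ?_) (sup_le_sup_left inf_le_left _)
    have := h1 x y z
    rwa [(dj_of_eq h m).1] at this
  · intro x y z h
    refine le_antisymm (inf_le_inf_left _ le_sup_left) (le_inf inf_le_left ?_)
    have := h2 x y z
    rwa [(dm_of_eq h n).1] at this

/-! join identity in `Cl` -/

section join

open Cl

theorem j_e0 (i : ℕ) (x y z : Cl) (H : (x ⊔ dj (i + 1) x z y).e0) : (x ⊔ (y ⊓ z)).e0 := by
  rcases H with H | ⟨H, H'⟩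
  · exact Or.inl H
  · rcases H' with H' | H'
    · exact Or.inl H'
    · exact Or.inr ⟨le_e0 (dj_le i x y z) H', H⟩

theorem j_h (i : ℕ) (x y z : Cl) (H : (x ⊔ dj (i + 1) x z y).h) : (x ⊔ (y ⊓ z)).h := by
  rcases H with H | ⟨H, H'⟩
  · exact Or.inl H
  · rcases H' with H' | H'
    · exact Or.inl H'
    · exact Or.inr ⟨le_h (dj_le i x y z) H', H⟩

theorem j_t (i : ℕ) (x y z : Cl) (H : (x ⊔ dj (i + 1) x z y).t) : (x ⊔ (y ⊓ z)).t := by
  rcases H with H | ⟨H, H'⟩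
  · exact Or.inl H
  · rcases H' with H' | H'
    · exact Or.inl H'
    · exact Or.inr ⟨le_t (dj_le i x y z) H', H⟩

theorem j_v (i : ℕ) (x y z : Cl) (H : (x ⊔ dj (i + 1) x z y).v) : (x ⊔ (y ⊓ z)).v := by
  rcases H with H | ⟨H, H'⟩
  · exact Or.inl H
  · rcases H' with H' | H'
    · exact Or.inl H'
    · exact Or.inr ⟨le_v (dj_le i x y z) H', H⟩

theorem j_e1 (i : ℕ) (x y z : Cl) (H : (x ⊔ dj (i + 2) x z y).e1) : (x ⊔ (y ⊓ z)).e1 := by
  rcases (sup_e1 _ _).1 H with H | H | H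
  · exact le_e1 le_sup_left H
  · obtain ⟨Hz, H⟩ := H
    rcases (sup_e1 _ _).1 H with H | H | H
    · exact le_e1 le_sup_left H
    · exact le_e1 le_sup_right (⟨le_e1 (dj_le _ x y z) H, Hz⟩ : (y ⊓ z).e1)
    · have h0 := j_e0 i x z y H.1
      have h1 := j_h i x z y H.2
      rw [inf_comm] at h0 h1
      exact (x ⊔ (y ⊓ z)).c2 h0 h1
  · exact (x ⊔ (y ⊓ z)).c2 (j_e0 (i + 1) x y z H.1) (j_h (i + 1) x y z H.2)

theorem j_q (i : ℕ) (x y z : Cl) (k : ℕ) (H : (x ⊔ dj (i + 3) x z y).q k) :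
    (x ⊔ (y ⊓ z)).q k := by
  rcases (sup_q _ _ k).1 H with H | H | H
  · exact le_q le_sup_left k H
  · obtain ⟨Hz, H⟩ := H
    rcases (sup_q _ _ k).1 H with H | H | H
    · exact le_q le_sup_left k H
    · exact le_q le_sup_right k (⟨le_q (dj_le _ x y z) k H, Hz⟩ : (y ⊓ z).q k)
    · have h0 := j_e1 i x z y H.1
      have h1 := j_t (i + 1) x z y H.2
      rw [inf_comm] at h0 h1
      exact (x ⊔ (y ⊓ z)).c4 h0 h1 k
  · exact (x ⊔ (y ⊓ z)).c4 (j_e1 (i + 1) x y z H.1) (j_t (i + 2) x y z H.2) k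

theorem j_p (i : ℕ) (x y z : Cl) (H : (x ⊔ dj (i + 4) x z y).p) :
    (x ⊔ (y ⊓ z)).p := by
  rcases (sup_p _ _).1 H with H | H | H
  · exact le_p le_sup_left H
  · obtain ⟨Hz, H⟩ := H
    rcases (sup_p _ _).1 H with H | H | H
    · exact le_p le_sup_left H
    · exact le_p le_sup_right (⟨le_p (dj_le _ x y z) H, Hz⟩ : (y ⊓ z).p)
    · have h1 := j_v (i + 2) x z y H.1
      have h0 := fun k => j_q i x z y k (H.2 k)
      rw [inf_comm] at h0 h1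
      exact (x ⊔ (y ⊓ z)).c7 h1 h0
  · exact (x ⊔ (y ⊓ z)).c7 (j_v (i + 3) x y z H.1) fun k => j_q (i + 1) x y z k (H.2 k)

theorem join_identity (x y z : Cl) : dj 5 x y z ≤ x ⊔ (y ⊓ z) := by
  refine le_trans (inf_le_right : dj 5 x y z ≤ x ⊔ dj 4 x z y) ?_
  rw [le_iff]
  exact ⟨j_e0 3 x y z, j_e1 2 x y z, j_h 3 x y z, j_t 3 x y z, j_v 3 x y z, j_p 0 x y z,
    fun k => j_q 1 x y z k⟩

end join

section meet

open Cl

theorem m_e0 (x y z : Cl) (H : (x ⊓ (y ⊔ z)).e0) : (dm 1 x y z).e0 := by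
  obtain ⟨Hx, H | H⟩ := H
  · exact Or.inl H
  · exact Or.inr ⟨Hx, H⟩

theorem m_h (x y z : Cl) (H : (x ⊓ (y ⊔ z)).h) : (dm 1 x y z).h := by
  obtain ⟨Hx, H | H⟩ := H
  · exact Or.inl H
  · exact Or.inr ⟨Hx, H⟩

theorem m_t (x y z : Cl) (H : (x ⊓ (y ⊔ z)).t) : (dm 1 x y z).t := by
  obtain ⟨Hx, H | H⟩ := H
  · exact Or.inl H
  · exact Or.inr ⟨Hx, H⟩

theorem m_v (x y z : Cl) (H : (x ⊓ (y ⊔ z)).v) : (dm 1 x y z).v := by
  obtain ⟨Hx, H | H⟩ := H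
  · exact Or.inl H
  · exact Or.inr ⟨Hx, H⟩

/-- elements of `x ⊓ dm i x z y` are in `dm (i+1) x y z` -/
theorem step (i : ℕ) (x y z : Cl) : x ⊓ dm i x z y ≤ dm (i + 1) x y z := le_sup_right

theorem m_e1 (x y z : Cl) (H : (x ⊓ (y ⊔ z)).e1) : (dm 2 x y z).e1 := by
  obtain ⟨Hx, H⟩ := H
  rcases (sup_e1 _ _).1 H with H | H | H
  · exact le_e1 (le_dm 2 x y z) H
  · exact le_e1 (step 1 x y z) ⟨Hx, le_e1 (le_dm 1 x z y) H⟩
  · have h0 : (dm 1 x z y).e0 := m_e0 x z y ⟨x.c1 Hx, H.1.symm⟩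
    rcases H.2 with h | h
    · exact (dm 2 x y z).c2 (le_e0 (step 1 x y z) ⟨x.c1 Hx, h0⟩) (le_h (le_dm 2 x y z) h)
    · exact le_e1 (step 1 x y z) ⟨Hx, (dm 1 x z y).c2 h0 (le_h (le_dm 1 x z y) h)⟩

theorem m_q (x y z : Cl) (k : ℕ) (H : (x ⊓ (y ⊔ z)).q k) : (dm 3 x y z).q k := by
  obtain ⟨Hx, H⟩ := H
  rcases (sup_q _ _ k).1 H with H | H | H
  · exact le_q (le_dm 3 x y z) k H
  · exact le_q (step 2 x y z) k ⟨Hx, le_q (le_dm 2 x z y) k H⟩
  · have hx := x.c3 k Hx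
    have h0 : (dm 2 x z y).e1 := m_e1 x z y ⟨hx, by rw [sup_comm]; exact H.1⟩
    rcases H.2 with h | h
    · exact (dm 3 x y z).c4 (le_e1 (step 2 x y z) ⟨hx, h0⟩) (le_t (le_dm 3 x y z) h) k
    · exact le_q (step 2 x y z) k ⟨Hx, (dm 2 x z y).c4 h0 (le_t (le_dm 2 x z y) h) k⟩

theorem m_p (x y z : Cl) (H : (x ⊓ (y ⊔ z)).p) : (dm 4 x y z).p := by
  obtain ⟨Hx, H⟩ := H
  rcases (sup_p _ _).1 H with H | H | H
  · exact le_p (le_dm 4 x y z) H
  · exact le_p (step 3 x y z) ⟨Hx, le_p (le_dm 3 x z y) H⟩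
  · have h0 : ∀ k, (dm 3 x z y).q k := fun k =>
      m_q x z y k ⟨x.c6 Hx k, by rw [sup_comm]; exact H.2 k⟩
    rcases H.1 with h | h
    · exact (dm 4 x y z).c7 (le_v (le_dm 4 x y z) h)
        fun k => le_q (step 3 x y z) k ⟨x.c6 Hx k, h0 k⟩
    · exact le_p (step 3 x y z) ⟨Hx, (dm 3 x z y).c7 (le_v (le_dm 3 x z y) h) h0⟩

theorem meet_identity (x y z : Cl) : x ⊓ (y ⊔ z) ≤ dm 4 x y z := by
  have m1 := dm_mono 1 x y z
  have m2 := dm_mono 2 x y z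
  have m3 := dm_mono 3 x y z
  have m13 : dm 1 x y z ≤ dm 4 x y z := m1.trans (m2.trans m3)
  have m23 : dm 2 x y z ≤ dm 4 x y z := m2.trans m3
  rw [le_iff]
  exact ⟨fun H => le_e0 m13 (m_e0 x y z H), fun H => le_e1 m23 (m_e1 x y z H),
    fun H => le_h m13 (m_h x y z H), fun H => le_t m13 (m_t x y z H),
    fun H => le_v m13 (m_v x y z H), m_p x y z, fun k H => le_q m3 k (m_q x y z k H)⟩

end meet

theorem variety_sd {M : Type v} [Lattice M] (H : InVariety Cl M) : Semidistributive M := by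
  refine semidistributive_of 5 4 ?_ ?_
  · intro x y z
    have := H.le (tj 5 (.var 0) (.var 1) (.var 2)) (.sup (.var 0) (.inf (.var 1) (.var 2)))
      (fun σ => by
        rw [eval_tj]
        exact join_identity _ _ _) (fun n => if n = 0 then x else if n = 1 then y else z)
    rw [eval_tj] at this
    exact this
  · intro x y z
    have := H.le (.inf (.var 0) (.sup (.var 1) (.var 2))) (tm 4 (.var 0) (.var 1) (.var 2))
      (fun σ => by
        rw [eval_tm]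
        exact meet_identity _ _ _) (fun n => if n = 0 then x else if n = 1 then y else z)
    rw [eval_tm] at this
    exact this

theorem cl_sd : Semidistributive Cl :=
  semidistributive_of 5 4 join_identity meet_identity

end Pool.Agent.Helper44.SDLat
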